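import Pool.Agent.X263.AL.Stm
import Pool.Agent.X115.GN.CHI
import Pool.Agent.X232.GN.IT

/-!
# Project AL, part DSC: descent of `Rel` to an extension of bounded degree
-/

set_option autoImplicit false

namespace Pool.Agent.X193.AL

open Finset Polynomial
open Pool.Agent.X328.GN (Ix nu de wrA hm it)
open Pool.Agent.X328.FP (vl)
open Pool.Agent.X263.AL
open Pool.Agent.X115.GN (nu_map de_map it_map wrA_map nu_monic de_deg)
open Pool.Agent.X232.GN (hm_eval_ne t_IT)

universe u v w

/-- adjoining finitely many elements of bounded degree -/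
lemma adj {M L : Type*} [Field M] [Field L] [Algebra M L] (D : ℕ) (s : Finset L) :
    (∀ a ∈ s, IsIntegral M a ∧ (minpoly M a).natDegree ≤ D) →
    FiniteDimensional M (IntermediateField.adjoin M (s : Set L)) ∧
    Module.finrank M (IntermediateField.adjoin M (s : Set L)) ≤ D ^ s.card := by
  classical
  induction s using Finset.induction_on with
  | empty =>
    intro _
    rw [Finset.coe_empty, IntermediateField.adjoin_empty]
    exact ⟨inferInstance, by simp [IntermediateField.finrank_bot]⟩
  | insert a s ha ih =>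
    intro h
    obtain ⟨h1, h2⟩ := ih (fun b hb => h b (Finset.mem_insert_of_mem hb))
    obtain ⟨ha1, ha2⟩ := h a (Finset.mem_insert_self a s)
    have e : IntermediateField.adjoin M ((insert a s : Finset L) : Set L) =
        IntermediateField.adjoin M {a} ⊔ IntermediateField.adjoin M (s : Set L) := by
      rw [Finset.coe_insert, Set.insert_eq, IntermediateField.adjoin_union]
    rw [e]
    haveI := IntermediateField.adjoin.finiteDimensional ha1
    haveI := h1
    refine ⟨IntermediateField.finiteDimensional_sup _ _, ?_⟩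
    calc _ ≤ Module.finrank M (IntermediateField.adjoin M {a}) *
          Module.finrank M (IntermediateField.adjoin M (s : Set L)) :=
          IntermediateField.finrank_sup_le ..
      _ ≤ D * D ^ s.card :=
          Nat.mul_le_mul (by rw [IntermediateField.adjoin.finrank ha1]; exact ha2) h2
      _ = D ^ (insert a s).card := by rw [Finset.card_insert_of_notMem ha]; ring

section map

variable {K L : Type*} [Field K] [Field L] (φ : K →+* L) (d : ℕ) (κ : Ix d → K)

lemma vl_map (x : K) : vl (nu d (fun i => φ (κ i))) (de d (fun i => φ (κ i))) (φ x) =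
    φ (vl (nu d κ) (de d κ) x) := by
  simp only [vl, ← nu_map φ, ← de_map φ, Polynomial.eval_map_apply, map_div₀]

lemma vl_iter (m : ℕ) (x : K) :
    (vl (nu d (fun i => φ (κ i))) (de d (fun i => φ (κ i))))^[m] (φ x) =
    φ ((vl (nu d κ) (de d κ))^[m] x) := by
  induction m with
  | zero => rfl
  | succ m ih => rw [Function.iterate_succ_apply', ih, vl_map, Function.iterate_succ_apply']

lemma Per_map (n : ℕ) (x : K) (h : Per d (fun i => φ (κ i)) n (φ x)) : Per d κ n x := by
  obtain ⟨h1, h2⟩ := h
  refine ⟨fun m hm h0 => h1 m hm ?_, ?_⟩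
  · rw [vl_iter, ← de_map φ, Polynomial.eval_map_apply, h0, map_zero]
  · rw [vl_iter] at h2
    exact φ.injective h2

lemma mu_map (n : ℕ) (x : K) : mu d (fun i => φ (κ i)) n (φ x) = φ (mu d κ n x) := by
  unfold mu
  rw [map_prod]
  refine Finset.prod_congr rfl fun m _ => ?_
  rw [vl_iter, map_div₀, map_pow, ← nu_map φ, ← de_map φ, ← wrA_map φ,
    Polynomial.eval_map_apply, Polynomial.eval_map_apply]

end map

/-- numerator and denominator of the iterates along an orbit avoiding `∞` -/
lemma it_eval {K : Type*} [Field K] (d : ℕ) (u w : K[X]) (hu : u.natDegree ≤ d)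
    (hw : w.natDegree ≤ d) (x : K) (n : ℕ) (h : ∀ m < n, w.eval ((vl u w)^[m] x) ≠ 0) :
    (it d u w n).2.eval x ≠ 0 ∧
      (it d u w n).1.eval x / (it d u w n).2.eval x = (vl u w)^[n] x := by
  induction n with
  | zero => simp [it]
  | succ n ih =>
    obtain ⟨h1, h2⟩ := ih (fun m hm => h m (by omega))
    have h3 := h n (by omega)
    have e2 : (it d u w (n + 1)).2.eval x =
        (it d u w n).2.eval x ^ d * w.eval ((vl u w)^[n] x) := by
      rw [it, hm_eval_ne d w _ _ hw x h1, h2]
    have e1 : (it d u w (n + 1)).1.eval x =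
        (it d u w n).2.eval x ^ d * u.eval ((vl u w)^[n] x) := by
      rw [it, hm_eval_ne d u _ _ hu x h1, h2]
    refine ⟨by rw [e2]; exact mul_ne_zero (pow_ne_zero _ h1) h3, ?_⟩
    rw [e1, e2, mul_div_mul_left _ _ (pow_ne_zero _ h1), Function.iterate_succ_apply']
    rfl

/-- a periodic point is a root of a nonzero polynomial of degree at most `d ^ n` -/
lemma root {M : Type u} [Field M] {L : Type*} [Field L] [Algebra M L] (d : ℕ) (hd : 2 ≤ d)
    (κ : Ix d → M) (hc : IsCoprime (nu d κ) (de d κ)) (n : ℕ) (hn : 1 ≤ n) (x : L)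
    (hx : Per d (fun i => algebraMap M L (κ i)) n x) :
    IsIntegral M x ∧ (minpoly M x).natDegree ≤ d ^ n := by
  obtain ⟨hcop, hmon, hdP, hdQ, -⟩ := t_IT M d hd (nu d κ) (de d κ) hc (nu_monic d hd κ).1
    (nu_monic d hd κ).2 (de_deg d hd κ) n
  have h2 : 2 ≤ d ^ n := hd.trans (Nat.le_self_pow (by omega) d)
  set P := (it d (nu d κ) (de d κ) n).1 with hP
  set Q := (it d (nu d κ) (de d κ) n).2 with hQ
  have hf0 : P - X * Q ≠ 0 := by
    intro h0
    have hPQ : P = X * Q := sub_eq_zero.1 h0
    have hu : IsUnit Q := hcop.isUnit_of_dvd' (hPQ ▸ Dvd.intro_left X rfl) dvd_rfl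
    have hQ0 : Q.natDegree = 0 := natDegree_eq_zero_of_isUnit hu
    have : P.natDegree ≤ 1 := by
      rw [hPQ]
      refine natDegree_mul_le.trans ?_
      rw [hQ0, natDegree_X]
    omega
  have hfd : (P - X * Q).natDegree ≤ d ^ n := by
    refine (natDegree_sub_le _ _).trans (max_le hdP.le ?_)
    refine natDegree_mul_le.trans ?_
    rw [natDegree_X]
    omega
  have hroot : aeval x (P - X * Q) = 0 := by
    have hi := it_eval d (nu d (fun i => algebraMap M L (κ i))) (de d (fun i => algebraMap M L (κ i)))
      (nu_monic d hd _).2.le (de_deg d hd _).le x n hx.1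
    rw [hx.2] at hi
    have e1 : aeval x P = (it d (nu d (fun i => algebraMap M L (κ i)))
        (de d (fun i => algebraMap M L (κ i))) n).1.eval x := by
      rw [← nu_map (algebraMap M L), ← de_map (algebraMap M L), ← (it_map (algebraMap M L) d _ _ n).1,
        Polynomial.eval_map, aeval_def]
    have e2 : aeval x Q = (it d (nu d (fun i => algebraMap M L (κ i)))
        (de d (fun i => algebraMap M L (κ i))) n).2.eval x := by
      rw [← nu_map (algebraMap M L), ← de_map (algebraMap M L), ← (it_map (algebraMap M L) d _ _ n).2,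
        Polynomial.eval_map, aeval_def]
    rw [map_sub, map_mul, aeval_X, e1, e2]
    have := hi.2
    rw [div_eq_iff hi.1] at this
    rw [this, sub_self]
  have hint : IsIntegral M x := by
    have : IsAlgebraic M x := ⟨_, hf0, hroot⟩
    exact this.isIntegral
  exact ⟨hint, (natDegree_le_of_dvd (minpoly.dvd M x hroot) hf0).trans hfd⟩

theorem t_DSC : S_DSC.{u, v} := by
  intro d N hd
  refine ⟨(d ^ N) ^ N, ?_⟩
  intro k M _ _ _ _ κ hc hR
  obtain ⟨r, len, x, G, hr, hx, hG, hrel⟩ := hR
  classical
  set s : Finset (AlgebraicClosure M) := Finset.univ.image x with hs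
  have hint : ∀ a ∈ s, IsIntegral M a ∧ (minpoly M a).natDegree ≤ d ^ N := by
    intro a ha
    obtain ⟨j, -, rfl⟩ := Finset.mem_image.1 ha
    obtain ⟨h1, h2, h3⟩ := hx j
    obtain ⟨h4, h5⟩ := root d hd κ hc (len j) h1 (x j) h3
    exact ⟨h4, h5.trans (Nat.pow_le_pow_right (by omega) h2)⟩
  obtain ⟨hfin, hrank⟩ := adj (d ^ N) s hint
  set F : IntermediateField M (AlgebraicClosure M) :=
    IntermediateField.adjoin M (s : Set (AlgebraicClosure M)) with hF
  have hmem : ∀ j, x j ∈ F := fun j =>
    IntermediateField.subset_adjoin M _ (by simp [hs])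
  letI : Algebra k F := ((algebraMap M F).comp (algebraMap k M)).toAlgebra
  have hcz : CharZero F := algebraRat.charZero F
  refine ⟨F, inferInstance, hcz, inferInstance, inferInstance,
    IsScalarTower.of_algebraMap_eq fun _ => rfl, hfin, ?_, ?_⟩
  · refine hrank.trans (Nat.pow_le_pow_right (Nat.pos_of_ne_zero (by positivity)) ?_)
    exact (Finset.card_image_le).trans (by simpa using hr)
  · have hmu : ∀ j, algebraMap F (AlgebraicClosure M) (mu d (fun i => algebraMap M F (κ i)) (len j)
        ⟨x j, hmem j⟩) = mu d (fun i => algebraMap M (AlgebraicClosure M) (κ i)) (len j) (x j) := by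
      intro j
      rw [← mu_map (algebraMap F (AlgebraicClosure M)) d (fun i => algebraMap M F (κ i)) (len j)]
      rfl
    have hae : ∀ g : MvPolynomial (Fin r) ℚ, algebraMap F (AlgebraicClosure M)
        (MvPolynomial.aeval (fun j => mu d (fun i => algebraMap M F (κ i)) (len j)
          ⟨x j, hmem j⟩) g) =
        MvPolynomial.aeval (fun j => mu d (fun i => algebraMap M (AlgebraicClosure M) (κ i))
          (len j) (x j)) g := by
      intro g
      rw [MvPolynomial.map_aeval]
      simp only [hmu]
      rw [MvPolynomial.aeval_def, MvPolynomial.coe_eval₂Hom]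
      congr 1
    refine ⟨r, len, fun j => ⟨x j, hmem j⟩, G, hr, fun j => ⟨(hx j).1, (hx j).2.1, ?_⟩, hG, ?_⟩
    · exact Per_map (algebraMap F (AlgebraicClosure M)) d (fun i => algebraMap M F (κ i)) (len j) _
        (hx j).2.2
    · intro i
      obtain ⟨⟨m, hm, h0⟩, h1⟩ := hrel i
      refine ⟨⟨m, hm, fun h => h0 ?_⟩, ?_⟩
      · rw [← hae, h, map_zero]
      · apply (algebraMap F (AlgebraicClosure M)).injective
        rw [map_sum, map_zero, ← h1]
        refine Finset.sum_congr rfl fun m _ => ?_
        rw [map_mul, map_pow, hae]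
        rfl

end Pool.Agent.X193.AL
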