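import Pool.Agent.X193.AL.IsoB

/-!
# Project AL, part ISO: the main lemma
-/

set_option autoImplicit false

namespace Pool.Agent.X193.AL

open Finset Polynomial Pool.Agent.W277.UH
open Pool.Agent.X328.GN (Ix nu de wrA hm it)
open Pool.Agent.X328.FP (vl)
open Pool.Agent.X263.AL

universe u v

section

variable {K : Type u} [Field K]

lemma exists_mu (k : Type v) [Field k] [Algebra k K] (γ : K) (hγ : γ ≠ 0) :
    ∃ μ : K →+ K, (∀ t x, IsAlgebraic k t → μ (t * x) = t * μ x) ∧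
      (∀ x, IsAlgebraic k (μ x)) ∧ μ γ = 1 := by
  set k' := algebraicClosure k K with hk'
  obtain ⟨g, hg⟩ := LinearMap.exists_leftInverse_of_injective (Algebra.linearMap k' K)
    (LinearMap.ker_eq_bot.2 (algebraMap k' K).injective)
  refine ⟨{ toFun := fun x => ((g (γ⁻¹ * x) : k') : K)
            map_zero' := by simp
            map_add' := fun x y => by simp [mul_add] }, ?_, ?_, ?_⟩
  · intro t x ht
    have ht' : t ∈ k' := mem_algebraicClosure_iff.2 ht
    show ((g (γ⁻¹ * (t * x)) : k') : K) = t * ((g (γ⁻¹ * x) : k') : K)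
    have : γ⁻¹ * (t * x) = (⟨t, ht'⟩ : k') • (γ⁻¹ * x) := by
      rw [Algebra.smul_def]
      show γ⁻¹ * (t * x) = t * (γ⁻¹ * x)
      ring
    rw [this, map_smul]
    rfl
  · intro x
    exact mem_algebraicClosure_iff.1 (g (γ⁻¹ * x)).2
  · show ((g (γ⁻¹ * γ) : k') : K) = 1
    rw [inv_mul_cancel₀ hγ]
    have h1 : g (Algebra.linearMap k' K 1) = 1 := by
      have := LinearMap.congr_fun hg 1
      simpa using this
    have h2 : Algebra.linearMap k' K 1 = 1 := by simp
    rw [h2] at h1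
    rw [h1]
    rfl

/-- apply `μ` to the coefficients up to degree `d` -/
noncomputable def mp (d : ℕ) (μ : K →+ K) (u : K[X]) : K[X] :=
  ∑ i ∈ range (d + 1), monomial i (μ (u.coeff i))

lemma mp_coeff (d : ℕ) (μ : K →+ K) (u : K[X]) (n : ℕ) :
    (mp d μ u).coeff n = if n < d + 1 then μ (u.coeff n) else 0 := by
  unfold mp
  rw [finsetSum_coeff]
  simp only [coeff_monomial]
  rw [Finset.sum_ite_eq']
  simp

lemma mp_deg (d : ℕ) (μ : K →+ K) (u : K[X]) : (mp d μ u).natDegree ≤ d := by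
  rw [natDegree_le_iff_coeff_eq_zero]
  intro n hn
  rw [mp_coeff, if_neg (by omega)]

lemma mp_eval (k : Type v) [Field k] [Algebra k K] (d : ℕ) (μ : K →+ K)
    (hμ : ∀ t x, IsAlgebraic k t → μ (t * x) = t * μ x) (u : K[X]) (hu : u.natDegree ≤ d) (z : K)
    (hz : IsAlgebraic k z) : (mp d μ u).eval z = μ (u.eval z) := by
  unfold mp
  rw [eval_finsetSum, eval_eq_sum_range' (Nat.lt_succ_of_le hu), map_sum]
  refine Finset.sum_congr rfl fun i _ => ?_
  rw [eval_monomial, mul_comm (u.coeff i), hμ _ _ (hz.pow i), mul_comm]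

theorem iso_core (k : Type v) [Field k] [Algebra k K] (d l : ℕ) (hd : 2 ≤ d) (hl : 1 ≤ l)
    (p q P R : K[X]) (hp : p.natDegree ≤ d) (hq : q.natDegree ≤ d)
    (hit : ∀ z : Option K, ratP1 P R (d ^ l) z = (ratP1 p q d)^[l] z) (κ : Ix (d ^ l) → K)
    (hco : IsCoprime (nu (d ^ l) κ) (de (d ^ l) κ)) (a b c e s : K) (hdet : a * e - b * c ≠ 0)
    (hs : s ≠ 0)
    (h1 : ∑ i ∈ Finset.range (d ^ l + 1),
      C ((nu (d ^ l) κ).coeff i) * (C a * X + C b) ^ i * (C c * X + C e) ^ (d ^ l - i) =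
        C s * (C a * P + C b * R))
    (h2 : ∑ i ∈ Finset.range (d ^ l + 1),
      C ((de (d ^ l) κ).coeff i) * (C a * X + C b) ^ i * (C c * X + C e) ^ (d ^ l - i) =
        C s * (C c * P + C e * R))
    (hκ : ∀ i, IsAlgebraic k (κ i))
    (hinf : {z : Option K | ∃ n : ℕ, 1 ≤ n ∧ (ratP1 p q d)^[n] z = z}.Infinite) :
    ∃ u w : K[X], (u ≠ 0 ∨ w ≠ 0) ∧
    u.natDegree ≤ d ∧ w.natDegree ≤ d ∧ (∀ n, IsAlgebraic k (u.coeff n)) ∧
    (∀ n, IsAlgebraic k (w.coeff n)) ∧
    (C a * p + C b * q) * ∑ i ∈ Finset.range (d + 1),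
      C (w.coeff i) * (C a * X + C b) ^ i * (C c * X + C e) ^ (d - i) =
    (C c * p + C e * q) * ∑ i ∈ Finset.range (d + 1),
      C (u.coeff i) * (C a * X + C b) ^ i * (C c * X + C e) ^ (d - i) := by
  have hD : 2 ≤ d ^ l := hd.trans (Nat.le_self_pow (by omega) d)
  have hY := good_infinite p q d a b c e hdet hinf
  set A : K[X] := C a * p + C b * q with hA
  set B : K[X] := C c * p + C e * q with hB
  have hAd : A.natDegree ≤ d := (natDegree_add_le _ _).trans
    (max_le ((natDegree_C_mul_le _ _).trans hp) ((natDegree_C_mul_le _ _).trans hq))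
  have hBd : B.natDegree ≤ d := (natDegree_add_le _ _).trans
    (max_le ((natDegree_C_mul_le _ _).trans hp) ((natDegree_C_mul_le _ _).trans hq))
  have halg : ∀ y, Good p q d c e y → IsAlgebraic k ((a * y + b) / (c * y + e)) := by
    intro y hy
    obtain ⟨n, hn, hper⟩ := good_per d l p q P R hit κ hD a b c e s hs h1 h2 y hy
    exact per_alg (d ^ l) hD κ hco hκ n hn _ hper
  have hne : ∀ y, Good p q d c e y → c * y + e ≠ 0 := by
    intro y hy
    obtain ⟨x, hx, hx2⟩ := hy.2 0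
    have : y = x := by simpa using hx
    rw [this]
    exact hx2
  set u1 := Tinv d A a b c e with hu1
  set w1 := Tinv d B a b c e with hw1
  have hu1d : u1.natDegree ≤ d := Tinv_deg d A a b c e
  have hw1d : w1.natDegree ≤ d := Tinv_deg d B a b c e
  -- the values at the good points
  have hval : ∀ y, Good p q d c e y → ∃ y1, Good p q d c e y1 ∧ q.eval y ≠ 0 ∧
      A.eval y = q.eval y * (a * y1 + b) ∧ B.eval y = q.eval y * (c * y1 + e) ∧
      c * y1 + e ≠ 0 ∧ w1.eval ((a * y + b) / (c * y + e)) ≠ 0 ∧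
      u1.eval ((a * y + b) / (c * y + e)) =
        (a * y1 + b) / (c * y1 + e) * w1.eval ((a * y + b) / (c * y + e)) := by
    intro y hy
    obtain ⟨y1, hy1, hqy, hpy, hne1⟩ := hy.step
    have hAy : A.eval y = q.eval y * (a * y1 + b) := by
      simp only [hA, eval_add, eval_mul, eval_C, hpy]; ring
    have hBy : B.eval y = q.eval y * (c * y1 + e) := by
      simp only [hB, eval_add, eval_mul, eval_C, hpy]; ring
    have e1 := Tinv_eval d A hAd a b c e y hdet (hne y hy)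
    have e2 := Tinv_eval d B hBd a b c e y hdet (hne y hy)
    have h0 : ((a * e - b * c) / (c * y + e)) ^ d ≠ 0 :=
      pow_ne_zero _ (div_ne_zero hdet (hne y hy))
    refine ⟨y1, hy1, hqy, hAy, hBy, hne1, ?_, ?_⟩
    · rw [hw1, e2, hBy]
      exact mul_ne_zero h0 (mul_ne_zero hqy hne1)
    · rw [hu1, hw1, e1, e2, hAy, hBy]
      field_simp
  obtain ⟨y0, hy0⟩ := hY.nonempty
  obtain ⟨-, -, -, -, -, -, hw0, -⟩ := hval y0 hy0
  have hw1ne : w1 ≠ 0 := by
    intro h
    rw [h] at hw0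
    exact hw0 (by simp)
  set γ := w1.leadingCoeff with hγ
  have hγ0 : γ ≠ 0 := leadingCoeff_ne_zero.2 hw1ne
  obtain ⟨μ, hμ1, hμ2, hμ3⟩ := exists_mu (K := K) k γ hγ0
  have hev : ∀ y, Good p q d c e y → ∃ y1, A.eval y = q.eval y * (a * y1 + b) ∧
      B.eval y = q.eval y * (c * y1 + e) ∧ c * y1 + e ≠ 0 ∧
      (mp d μ u1).eval ((a * y + b) / (c * y + e)) =
        (a * y1 + b) / (c * y1 + e) * (mp d μ w1).eval ((a * y + b) / (c * y + e)) := by
    intro y hy
    obtain ⟨y1, hy1, hqy, hAy, hBy, hne1, -, hu⟩ := hval y hy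
    refine ⟨y1, hAy, hBy, hne1, ?_⟩
    rw [mp_eval k d μ hμ1 u1 hu1d _ (halg y hy), mp_eval k d μ hμ1 w1 hw1d _ (halg y hy), hu,
      hμ1 _ _ (halg y1 hy1)]
  refine ⟨mp d μ u1, mp d μ w1, Or.inr ?_, mp_deg d μ u1, mp_deg d μ w1, ?_, ?_, ?_⟩
  · intro h
    have h3 := mp_coeff d μ w1 w1.natDegree
    rw [h, coeff_zero, if_pos (by omega)] at h3
    have : μ (w1.coeff w1.natDegree) = 1 := hμ3
    rw [this] at h3
    exact zero_ne_one h3
  · intro n
    rw [mp_coeff]
    split_ifs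
    · exact hμ2 _
    · exact isAlgebraic_zero
  · intro n
    rw [mp_coeff]
    split_ifs
    · exact hμ2 _
    · exact isAlgebraic_zero
  · refine Polynomial.eq_of_infinite_eval_eq _ _ (hY.mono fun y hy => ?_)
    obtain ⟨y1, hAy, hBy, hne1, hu⟩ := hev y hy
    show eval y _ = eval y _
    rw [eval_mul, eval_mul, T_eval d _ (mp_deg d μ w1) a b c e y (hne y hy),
      T_eval d _ (mp_deg d μ u1) a b c e y (hne y hy), hAy, hBy, hu]
    generalize c * y1 + e = t at hne1 ⊢
    field_simp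

end

end Pool.Agent.X193.AL
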