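import Pool.Agent.X263.AL.Stm2
import Pool.Agent.X193.AL.IsoC

/-!
# Project AL, part ISO: a map with an isotrivial iterate is isotrivial
-/

set_option autoImplicit false

namespace Pool.Agent.X193.AL

open Finset Polynomial Pool.Agent.W277.UH
open Pool.Agent.X328.GN (Ix nu de)
open Pool.Agent.X263.AL

universe u v

theorem t_ISO (hINF : S_INF.{u}) : S_ISO.{u, v} := by
  intro k K _ _ _ _ _ _ d l hd hl p q P R hpq hdeg hPR hdeg' hit κ hco hconj hκ
  obtain ⟨a, b, c, e, hdet, s, hs, h1, h2⟩ := hconj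
  have hp : p.natDegree ≤ d := hdeg ▸ le_max_left _ _
  have hq : q.natDegree ≤ d := hdeg ▸ le_max_right _ _
  obtain ⟨u, w, h⟩ := iso_core k d l hd hl p q P R hp hq hit κ hco a b c e s hdet hs h1 h2 hκ
    (hINF K d hd p q hpq hdeg)
  exact ⟨a, b, c, e, hdet, u, w, h⟩

end Pool.Agent.X193.AL
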