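import Pool.Agent.X193.AL.DSC

/-!
# Project AL, part ISO: pointwise lemmas
-/

set_option autoImplicit false

namespace Pool.Agent.X193.AL

open Finset Polynomial Pool.Agent.W277.UH
open Pool.Agent.X328.GN (Ix nu de wrA hm it)
open Pool.Agent.X328.FP (vl)
open Pool.Agent.X263.AL
open Pool.Agent.X115.GN (nu_map de_map nu_monic de_deg)

universe u v

section

variable {K : Type u} [Field K]

/-- evaluation of the homogenised composition with `(a X + b) / (c X + e)` -/
lemma T_eval (d : ℕ) (u : K[X]) (hu : u.natDegree ≤ d) (a b c e y : K) (h : c * y + e ≠ 0) :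
    (∑ i ∈ Finset.range (d + 1),
      C (u.coeff i) * (C a * X + C b) ^ i * (C c * X + C e) ^ (d - i)).eval y =
    (c * y + e) ^ d * u.eval ((a * y + b) / (c * y + e)) := by
  rw [eval_finsetSum, eval_eq_sum_range' (Nat.lt_succ_of_le hu), Finset.mul_sum]
  refine Finset.sum_congr rfl fun i hi => ?_
  have hi' : i ≤ d := Nat.lt_succ_iff.1 (Finset.mem_range.1 hi)
  obtain ⟨f, rfl⟩ := Nat.exists_eq_add_of_le hi'
  simp only [eval_mul, eval_C, eval_pow, eval_add, eval_X]
  rw [Nat.add_sub_cancel_left, div_pow, pow_add]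
  generalize c * y + e = t at h ⊢
  field_simp

/-- the inverse substitution -/
noncomputable def Tinv (d : ℕ) (A : K[X]) (a b c e : K) : K[X] :=
  ∑ i ∈ Finset.range (d + 1),
      C (A.coeff i) * (C e * X + C (-b)) ^ i * (C (-c) * X + C a) ^ (d - i)

lemma Tinv_deg (d : ℕ) (A : K[X]) (a b c e : K) : (Tinv d A a b c e).natDegree ≤ d := by
  unfold Tinv
  refine natDegree_sum_le_of_forall_le _ _ fun i hi => ?_
  have hi' : i ≤ d := Nat.lt_succ_iff.1 (Finset.mem_range.1 hi)
  have h1 : (C e * X + C (-b) : K[X]).natDegree ≤ 1 := natDegree_linear_le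
  have h2 : (C (-c) * X + C a : K[X]).natDegree ≤ 1 := natDegree_linear_le
  refine natDegree_mul_le.trans ?_
  have h3 : ((C (-c) * X + C a : K[X]) ^ (d - i)).natDegree ≤ d - i :=
    natDegree_pow_le.trans (by nlinarith)
  have h4 : (C (A.coeff i) * (C e * X + C (-b) : K[X]) ^ i).natDegree ≤ i := by
    refine (natDegree_C_mul_le _ _).trans (natDegree_pow_le.trans (by nlinarith))
  omega

lemma Tinv_eval (d : ℕ) (A : K[X]) (hA : A.natDegree ≤ d) (a b c e y : K)
    (hdet : a * e - b * c ≠ 0) (h : c * y + e ≠ 0) :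
    (Tinv d A a b c e).eval ((a * y + b) / (c * y + e)) =
      ((a * e - b * c) / (c * y + e)) ^ d * A.eval y := by
  have h1 : -c * ((a * y + b) / (c * y + e)) + a = (a * e - b * c) / (c * y + e) := by
    field_simp; ring
  have h2 : -c * ((a * y + b) / (c * y + e)) + a ≠ 0 := by
    rw [h1]; exact div_ne_zero hdet h
  unfold Tinv
  rw [T_eval d A hA e (-b) (-c) a _ h2, h1]
  have h3 : e * ((a * y + b) / (c * y + e)) + -b = y * ((a * e - b * c) / (c * y + e)) := by
    rw [eq_comm, mul_div_assoc', div_eq_iff h, add_mul, mul_div_assoc', div_mul_cancel₀ _ h]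
    ring
  rw [h3, mul_div_assoc, div_self (div_ne_zero hdet h), mul_one]

/-- points with a periodic orbit which avoids `∞` and the pole of `(a X + b) / (c X + e)` -/
def Good (p q : K[X]) (d : ℕ) (c e : K) (y : K) : Prop :=
  (∃ n, 1 ≤ n ∧ (ratP1 p q d)^[n] (some y) = some y) ∧
    ∀ m, ∃ x : K, (ratP1 p q d)^[m] (some y) = some x ∧ c * x + e ≠ 0

lemma ratP1_eq_some (p q : K[X]) (d : ℕ) (x y : K) (h : ratP1 p q d (some x) = some y) :
    q.eval x ≠ 0 ∧ p.eval x = y * q.eval x := by
  by_cases h0 : q.eval x = 0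
  · rw [ratP1_some0 p q d x h0] at h
    exact absurd h (by simp)
  · rw [ratP1_some p q d x h0] at h
    have h2 := Option.some.inj h
    exact ⟨h0, by rw [← h2]; field_simp⟩

lemma Good.step {p q : K[X]} {d : ℕ} {c e y : K} (h : Good p q d c e y) :
    ∃ y1, Good p q d c e y1 ∧ q.eval y ≠ 0 ∧ p.eval y = y1 * q.eval y ∧ c * y1 + e ≠ 0 := by
  obtain ⟨⟨n, hn, hp⟩, hm⟩ := h
  obtain ⟨y1, h1, h2⟩ := hm 1
  rw [Function.iterate_one] at h1
  obtain ⟨h3, h4⟩ := ratP1_eq_some p q d y y1 h1
  refine ⟨y1, ⟨⟨n, hn, ?_⟩, fun m => ?_⟩, h3, h4, h2⟩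
  · rw [← h1, ← Function.iterate_succ_apply, Function.iterate_succ_apply', hp]
  · obtain ⟨x, hx, hx2⟩ := hm (m + 1)
    refine ⟨x, ?_, hx2⟩
    rw [← h1, ← Function.iterate_succ_apply]
    exact hx

/-- `Good` points are infinite in number if the periodic points are. -/
lemma good_infinite (p q : K[X]) (d : ℕ) (a b c e : K) (hdet : a * e - b * c ≠ 0)
    (hinf : {z : Option K | ∃ n : ℕ, 1 ≤ n ∧ (ratP1 p q d)^[n] z = z}.Infinite) :
    {y : K | Good p q d c e y}.Infinite := by
  classical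
  set f := ratP1 p q d with hf
  -- the points whose orbit meets a given point
  have hfin : ∀ β : Option K, {z : Option K | (∃ n : ℕ, 1 ≤ n ∧ f^[n] z = z) ∧
      ∃ m, f^[m] z = β}.Finite := by
    intro β
    by_cases hβ : ∃ n, 1 ≤ n ∧ f^[n] β = β
    · obtain ⟨n0, hn0, hb⟩ := hβ
      refine ((Finset.range n0).image (fun j => f^[j] β)).finite_toSet.subset ?_
      rintro z ⟨⟨n, hn, hz⟩, m, hm⟩
      have hper : Function.IsPeriodicPt f n z := hz
      have hz2 : f^[n * m] z = z := (hper.const_mul m |> fun h => by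
        rw [mul_comm]; exact h)
      have hle : m ≤ n * m := Nat.le_mul_of_pos_left m hn
      have hz3 : z = f^[n * m - m] β := by
        rw [← hm, ← Function.iterate_add_apply, Nat.sub_add_cancel hle, hz2]
      have hperb : Function.IsPeriodicPt f n0 β := hb
      rw [Finset.coe_image]
      refine ⟨(n * m - m) % n0, ?_, ?_⟩
      · simpa using Nat.mod_lt _ (by omega)
      · show f^[(n * m - m) % n0] β = z
        rw [hperb.iterate_mod_apply]
        exact hz3.symm
    · have : {z : Option K | (∃ n : ℕ, 1 ≤ n ∧ f^[n] z = z) ∧ ∃ m, f^[m] z = β} = ∅ := by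
        ext z
        simp only [Set.mem_ofPred_eq, Set.mem_empty_iff_false, iff_false]
        rintro ⟨⟨n, hn, hz⟩, m, hm⟩
        exact hβ ⟨n, hn, by
          rw [← hm, ← Function.iterate_add_apply, add_comm, Function.iterate_add_apply, hz]⟩
      rw [this]
      exact Set.finite_empty
  -- the bad points
  set Bd : Set (Option K) := {z | z = none ∨ ∃ y, z = some y ∧ c * y + e = 0} with hBd
  have hBdf : Bd.Finite := by
    have : Bd ⊆ {none, some (-e / c)} := by
      rintro z (rfl | ⟨y, rfl, hy⟩)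
      · simp
      · have hc : c ≠ 0 := by
          rintro rfl
          have : e = 0 := by simpa using hy
          apply hdet
          rw [this]; ring
        right
        have : y = -e / c := by
          rw [eq_div_iff hc]
          linear_combination hy
        rw [this]; rfl
    exact (Set.toFinite _).subset this
  have hbad : {z : Option K | (∃ n : ℕ, 1 ≤ n ∧ f^[n] z = z) ∧ ∃ m, f^[m] z ∈ Bd}.Finite := by
    have : {z : Option K | (∃ n : ℕ, 1 ≤ n ∧ f^[n] z = z) ∧ ∃ m, f^[m] z ∈ Bd} ⊆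
        ⋃ β ∈ Bd, {z : Option K | (∃ n : ℕ, 1 ≤ n ∧ f^[n] z = z) ∧ ∃ m, f^[m] z = β} := by
      rintro z ⟨h1, m, hm⟩
      simp only [Set.mem_iUnion]
      exact ⟨f^[m] z, hm, h1, m, rfl⟩
    exact (hBdf.biUnion fun β _ => hfin β).subset this
  have hgood := hinf.sdiff hbad
  have himg : {z : Option K | ∃ n : ℕ, 1 ≤ n ∧ f^[n] z = z} \
      {z : Option K | (∃ n : ℕ, 1 ≤ n ∧ f^[n] z = z) ∧ ∃ m, f^[m] z ∈ Bd} ⊆
      some '' {y : K | Good p q d c e y} := by
    rintro z ⟨h1, h2⟩
    have h3 : ∀ m, f^[m] z ∉ Bd := fun m hm => h2 ⟨h1, m, hm⟩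
    rcases z with _ | y
    · exact absurd (Or.inl rfl) (h3 0)
    · refine ⟨y, ⟨h1, fun m => ?_⟩, rfl⟩
      rcases hx : f^[m] (some y) with _ | x
      · exact absurd (Or.inl hx) (h3 m)
      · exact ⟨x, rfl, fun h0 => h3 m (Or.inr ⟨x, hx, h0⟩)⟩
  exact Set.Infinite.of_image some (hgood.mono himg)

end

end Pool.Agent.X193.AL
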