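import Pool.Agent.X193.AL.IsoA

/-!
# Project AL, part ISO: the periodic points are algebraic, and the linear functional
-/

set_option autoImplicit false

namespace Pool.Agent.X193.AL

open Finset Polynomial Pool.Agent.W277.UH
open Pool.Agent.X328.GN (Ix nu de wrA hm it)
open Pool.Agent.X328.FP (vl)
open Pool.Agent.X263.AL
open Pool.Agent.X115.GN (nu_map de_map nu_monic de_deg)

universe u v

section

variable {K : Type u} [Field K]

/-- one step of the conjugate of the `l`-th iterate -/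
lemma conj_step (D : ℕ) (P R u w : K[X]) (hu : u.natDegree ≤ D) (hw : w.natDegree ≤ D)
    (a b c e s : K) (hs : s ≠ 0)
    (h1 : ∑ i ∈ Finset.range (D + 1),
      C (u.coeff i) * (C a * X + C b) ^ i * (C c * X + C e) ^ (D - i) = C s * (C a * P + C b * R))
    (h2 : ∑ i ∈ Finset.range (D + 1),
      C (w.coeff i) * (C a * X + C b) ^ i * (C c * X + C e) ^ (D - i) = C s * (C c * P + C e * R))
    (x x' : K) (hx : c * x + e ≠ 0) (hx' : c * x' + e ≠ 0) (hR : R.eval x ≠ 0)
    (hP : P.eval x = x' * R.eval x) :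
    w.eval ((a * x + b) / (c * x + e)) ≠ 0 ∧
      vl u w ((a * x + b) / (c * x + e)) = (a * x' + b) / (c * x' + e) := by
  have e1 := T_eval D u hu a b c e x hx
  have e2 := T_eval D w hw a b c e x hx
  rw [h1] at e1
  rw [h2] at e2
  simp only [eval_mul, eval_add, eval_C, hP] at e1 e2
  have e1' : (c * x + e) ^ D * u.eval ((a * x + b) / (c * x + e)) =
      s * R.eval x * (a * x' + b) := by rw [← e1]; ring
  have e2' : (c * x + e) ^ D * w.eval ((a * x + b) / (c * x + e)) =
      s * R.eval x * (c * x' + e) := by rw [← e2]; ring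
  have hw0 : w.eval ((a * x + b) / (c * x + e)) ≠ 0 := by
    intro h0
    rw [h0, mul_zero] at e2'
    exact (mul_ne_zero (mul_ne_zero hs hR) hx') e2'.symm
  refine ⟨hw0, ?_⟩
  unfold vl
  rw [div_eq_div_iff hw0 hx']
  have hD : (c * x + e) ^ D ≠ 0 := pow_ne_zero _ hx
  apply mul_left_cancel₀ (mul_ne_zero hD (mul_ne_zero hs hR))
  calc (c * x + e) ^ D * (s * R.eval x) * (u.eval ((a * x + b) / (c * x + e)) * (c * x' + e))
      = (c * x + e) ^ D * u.eval ((a * x + b) / (c * x + e)) *
          (s * R.eval x * (c * x' + e)) := by ring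
    _ = s * R.eval x * (a * x' + b) *
          ((c * x + e) ^ D * w.eval ((a * x + b) / (c * x + e))) := by rw [e1', e2']
    _ = (c * x + e) ^ D * (s * R.eval x) *
          ((a * x' + b) * w.eval ((a * x + b) / (c * x + e))) := by ring

/-- the image of a good point is periodic for the conjugate of the iterate -/
lemma good_per (d l : ℕ) (p q P R : K[X])
    (hit : ∀ z : Option K, ratP1 P R (d ^ l) z = (ratP1 p q d)^[l] z) (κ : Ix (d ^ l) → K)
    (hD : 2 ≤ d ^ l) (a b c e s : K) (hs : s ≠ 0)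
    (h1 : ∑ i ∈ Finset.range (d ^ l + 1),
      C ((nu (d ^ l) κ).coeff i) * (C a * X + C b) ^ i * (C c * X + C e) ^ (d ^ l - i) =
        C s * (C a * P + C b * R))
    (h2 : ∑ i ∈ Finset.range (d ^ l + 1),
      C ((de (d ^ l) κ).coeff i) * (C a * X + C b) ^ i * (C c * X + C e) ^ (d ^ l - i) =
        C s * (C c * P + C e * R))
    (y : K) (hy : Good p q d c e y) :
    ∃ n, 1 ≤ n ∧ Per (d ^ l) κ n ((a * y + b) / (c * y + e)) := by
  obtain ⟨⟨n, hn, hp⟩, hm⟩ := hy
  have hu := (nu_monic (d ^ l) hD κ).2.le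
  have hw := (de_deg (d ^ l) hD κ).le
  have key : ∀ j : ℕ, ∃ x : K, (ratP1 p q d)^[l * j] (some y) = some x ∧
      (vl (nu (d ^ l) κ) (de (d ^ l) κ))^[j] ((a * y + b) / (c * y + e)) =
        (a * x + b) / (c * x + e) ∧ (de (d ^ l) κ).eval ((a * x + b) / (c * x + e)) ≠ 0 := by
    intro j
    induction j with
    | zero =>
      obtain ⟨x', hx', hx2'⟩ := hm l
      obtain ⟨x0, hx0, hx02⟩ := hm 0
      have : x0 = y := by simpa using hx0.symm
      subst this
      rw [← hit] at hx'
      obtain ⟨hR, hP⟩ := ratP1_eq_some P R (d ^ l) x0 x' hx'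
      exact ⟨x0, by simp, by simp,
        (conj_step (d ^ l) P R _ _ hu hw a b c e s hs h1 h2 x0 x' hx02 hx2' hR hP).1⟩
    | succ j ih =>
      obtain ⟨x, hx, hvx, -⟩ := ih
      obtain ⟨x0, hx0, hx02⟩ := hm (l * j)
      obtain ⟨x1, hx1, hx12⟩ := hm (l * (j + 1))
      obtain ⟨x2, hx2, hx22⟩ := hm (l * (j + 1) + l)
      rw [hx] at hx0
      obtain rfl := Option.some.inj hx0
      have s1 : ratP1 P R (d ^ l) (some x) = some x1 := by
        rw [hit, ← hx, ← Function.iterate_add_apply, ← hx1, show l * (j + 1) = l + l * j by ring]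
      have s2 : ratP1 P R (d ^ l) (some x1) = some x2 := by
        rw [hit, ← hx1, ← Function.iterate_add_apply, ← hx2, Nat.add_comm (l * (j + 1)) l]
      obtain ⟨hR, hP⟩ := ratP1_eq_some P R (d ^ l) x x1 s1
      obtain ⟨hR', hP'⟩ := ratP1_eq_some P R (d ^ l) x1 x2 s2
      refine ⟨x1, hx1, ?_, (conj_step (d ^ l) P R _ _ hu hw a b c e s hs h1 h2 x1 x2 hx12 hx22
        hR' hP').1⟩
      rw [Function.iterate_succ_apply', hvx]
      exact (conj_step (d ^ l) P R _ _ hu hw a b c e s hs h1 h2 x x1 hx02 hx12 hR hP).2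
  refine ⟨n, hn, fun m _ => ?_, ?_⟩
  · obtain ⟨x, -, h3, h4⟩ := key m
    rw [h3]
    exact h4
  · obtain ⟨x, h2, h3, -⟩ := key n
    rw [h3]
    have hper : Function.IsPeriodicPt (ratP1 p q d) n (some y) := hp
    have : (ratP1 p q d)^[l * n] (some y) = some y := hper.const_mul l
    rw [this] at h2
    rw [Option.some.inj h2]

/-- points periodic for a map with algebraic parameters are algebraic -/
lemma per_alg {k : Type v} [Field k] [Algebra k K] (D : ℕ) (hD : 2 ≤ D) (κ : Ix D → K)
    (hco : IsCoprime (nu D κ) (de D κ)) (hκ : ∀ i, IsAlgebraic k (κ i)) (n : ℕ) (hn : 1 ≤ n)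
    (z : K) (hz : Per D κ n z) : IsAlgebraic k z := by
  set k' := algebraicClosure k K with hk'
  let κ' : Ix D → k' := fun i => ⟨κ i, mem_algebraicClosure_iff.2 (hκ i)⟩
  have hκ' : (fun i => algebraMap k' K (κ' i)) = κ := rfl
  have hco' : IsCoprime (nu D κ') (de D κ') := by
    rw [← Polynomial.isCoprime_map (algebraMap k' K), nu_map, de_map]
    exact hco
  have h1 := (root D hD κ' hco' n hn z (by rw [hκ']; exact hz)).1
  have h2 : IsAlgebraic k' z := h1.isAlgebraic
  exact h2.restrictScalars k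

end

end Pool.Agent.X193.AL
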